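import Pool.Agent.H688R2.JIT.Opt

set_option autoImplicit false

namespace Pool.Agent.H688R2.JIT

open Finset

/-- squared positive part -/
noncomputable def pp (c x : ℝ) : ℝ := (max (x - c) 0) ^ 2

/-- a quadratic spline bump around `s` -/
noncomputable def bspl (s w x : ℝ) : ℝ :=
  pp (s - 3 * w) x - 3 * pp (s - w) x + 3 * pp (s + w) x - pp (s + 3 * w) x

lemma pp_of_le {c x : ℝ} (h : x ≤ c) : pp c x = 0 := by
  unfold pp
  rw [max_eq_right (by linarith)]
  norm_num

lemma pp_of_ge {c x : ℝ} (h : c ≤ x) : pp c x = (x - c) ^ 2 := by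
  unfold pp
  rw [max_eq_left (by linarith)]

lemma bspl_zero {s w x : ℝ} (hw : 0 < w) (h : x ≤ s - 3 * w ∨ s + 3 * w ≤ x) :
    bspl s w x = 0 := by
  unfold bspl
  rcases h with h | h
  · rw [pp_of_le h, pp_of_le (by linarith), pp_of_le (by linarith), pp_of_le (by linarith)]
    ring
  · rw [pp_of_ge h, pp_of_ge (by linarith), pp_of_ge (by linarith), pp_of_ge (by linarith)]
    ring

lemma bspl_center {s w : ℝ} (hw : 0 < w) : bspl s w s = 6 * w ^ 2 := by
  unfold bspl
  rw [pp_of_ge (c := s - 3 * w) (by linarith), pp_of_ge (c := s - w) (by linarith),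
    pp_of_le (c := s + w) (by linarith), pp_of_le (c := s + 3 * w) (by linarith)]
  ring

lemma pp_nonneg (c x : ℝ) : 0 ≤ pp c x := by
  unfold pp
  positivity

lemma pp_le {c x y : ℝ} (hy : 0 ≤ y) (h : x - c ≤ y) : pp c x ≤ y ^ 2 := by
  unfold pp
  have h0 : 0 ≤ max (x - c) 0 := le_max_right _ _
  have h1 : max (x - c) 0 ≤ y := max_le h hy
  nlinarith

lemma bspl_abs {s w : ℝ} (hw : 0 < w) (x : ℝ) : |bspl s w x| ≤ 288 * w ^ 2 := by
  by_cases h : x ≤ s - 3 * w ∨ s + 3 * w ≤ x
  · rw [bspl_zero hw h]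
    simp
    positivity
  · push Not at h
    have h1 := pp_le (c := s - 3 * w) (x := x) (y := 6 * w) (by linarith) (by linarith [h.2])
    have h2 := pp_le (c := s - w) (x := x) (y := 6 * w) (by linarith) (by linarith [h.2])
    have h3 := pp_le (c := s + w) (x := x) (y := 6 * w) (by linarith) (by linarith [h.2])
    have h4 := pp_le (c := s + 3 * w) (x := x) (y := 6 * w) (by linarith) (by linarith [h.2])
    have g1 := pp_nonneg (s - 3 * w) x
    have g2 := pp_nonneg (s - w) x
    have g3 := pp_nonneg (s + w) x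
    have g4 := pp_nonneg (s + 3 * w) x
    unfold bspl
    rw [abs_le]
    constructor <;> nlinarith

lemma bspl_shift (s w d x : ℝ) : bspl (s + d) w x = bspl s w (x - d) := by
  unfold bspl pp
  ring_nf

lemma convex_sq : ConvexOn ℝ Set.univ (fun x : ℝ => x ^ 2) := by
  exact Even.convexOn_pow (by decide)

lemma convex_affine (a b : ℝ) : ConvexOn ℝ Set.univ (fun x : ℝ => a * x + b) := by
  refine ⟨convex_univ, ?_⟩
  intro x _ y _ p q _ _ hpq
  simp only [smul_eq_mul]
  have : b = (p + q) * b := by rw [hpq, one_mul]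
  nlinarith

lemma convex_posPart (c : ℝ) : ConvexOn ℝ Set.univ (fun x : ℝ => max (x - c) 0) := by
  have h1 : ConvexOn ℝ Set.univ (fun x : ℝ => 1 * x + (-c)) := convex_affine 1 (-c)
  have h2 : ConvexOn ℝ Set.univ (fun _ : ℝ => (0 : ℝ)) := convexOn_const 0 convex_univ
  have h3 := h1.sup h2
  refine h3.congr ?_
  intro x _
  simp only [Pi.sup_apply]
  rw [one_mul, ← sub_eq_add_neg]

lemma convex_pp (c : ℝ) : ConvexOn ℝ Set.univ (pp c) := by
  have := (convex_posPart c).pow (fun x _ => le_max_right _ _) 2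
  exact this

lemma convex_sub_pp (c : ℝ) : ConvexOn ℝ Set.univ (fun x => x ^ 2 - pp c x) := by
  have h1 : ConvexOn ℝ Set.univ (fun x : ℝ => max ((-1) * x + c) 0) := by
    have h1 : ConvexOn ℝ Set.univ (fun x : ℝ => (-1) * x + c) := convex_affine (-1) c
    have h2 : ConvexOn ℝ Set.univ (fun _ : ℝ => (0 : ℝ)) := convexOn_const 0 convex_univ
    exact h1.sup h2
  have h2 := h1.pow (fun x _ => le_max_right _ _) 2
  have h3 := h2.add (convex_affine (2 * c) (-c ^ 2))
  refine h3.congr ?_
  intro x _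
  simp only [Pi.add_apply, Pi.pow_apply]
  rcases le_total x c with h | h
  · rw [pp_of_le h, max_eq_left (by linarith)]
    ring
  · rw [pp_of_ge h, max_eq_right (by linarith)]
    ring

lemma convex_one (a c : ℝ) : ConvexOn ℝ Set.univ (fun x => |a| * x ^ 2 + a * pp c x) := by
  rcases le_total 0 a with h | h
  · have h1 := convex_sq.smul (abs_nonneg a)
    have h2 := (convex_pp c).smul h
    exact h1.add h2
  · have h2 := (convex_sub_pp c).smul (show 0 ≤ -a by linarith)
    refine h2.congr ?_
    intro x _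
    simp only [smul_eq_mul]
    rw [abs_of_nonpos h]
    ring

lemma convex_bspl (a s w : ℝ) :
    ConvexOn ℝ Set.univ (fun x => 8 * |a| * x ^ 2 + a * bspl s w x) := by
  have h1 := convex_one a (s - 3 * w)
  have h2 := convex_one (-3 * a) (s - w)
  have h3 := convex_one (3 * a) (s + w)
  have h4 := convex_one (-a) (s + 3 * w)
  have h5 := ((h1.add h2).add h3).add h4
  refine h5.congr ?_
  intro x _
  simp only [Pi.add_apply]
  unfold bspl
  rw [abs_mul, abs_mul, abs_neg]
  norm_num
  ring

/-- the bump minus its shifted copy -/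
noncomputable def gg (s w d x : ℝ) : ℝ := bspl s w x - bspl (s + d) w x

lemma convex_gg (a s w d : ℝ) :
    ConvexOn ℝ Set.univ (fun x => 16 * |a| * x ^ 2 + a * gg s w d x) := by
  have h1 := convex_bspl a s w
  have h2 := convex_bspl (-a) (s + d) w
  refine (h1.add h2).congr ?_
  intro x _
  simp only [Pi.add_apply]
  unfold gg
  rw [abs_neg]
  ring

/-- the symmetric perturbation -/
noncomputable def bump (a s w d x : ℝ) : ℝ := a * (gg s w d x + gg s w d (-x))

lemma bump_even (a s w d x : ℝ) : bump a s w d (-x) = bump a s w d x := by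
  unfold bump
  rw [neg_neg, add_comm]

lemma convex_bump (a s w d : ℝ) :
    ConvexOn ℝ Set.univ (fun x => 32 * |a| * x ^ 2 + bump a s w d x) := by
  have h1 := convex_gg a s w d
  have h2 : ConvexOn ℝ Set.univ (fun x => 16 * |a| * x ^ 2 + a * gg s w d (-x)) := by
    have h3 := h1.comp_linearMap (LinearMap.mulLeft ℝ (-1 : ℝ))
    simp only [Set.preimage_univ] at h3
    refine h3.congr ?_
    intro x _
    simp [Function.comp]
  refine (h1.add h2).congr ?_
  intro x _
  simp only [Pi.add_apply]
  unfold bump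
  ring

lemma bump_abs {a s w d : ℝ} (hw : 0 < w) (x : ℝ) : |bump a s w d x| ≤ |a| * (1152 * w ^ 2) := by
  unfold bump gg
  rw [abs_mul]
  apply mul_le_mul_of_nonneg_left _ (abs_nonneg a)
  have h1 := abs_le.mp (bspl_abs (s := s) hw x)
  have h2 := abs_le.mp (bspl_abs (s := s + d) hw x)
  have h3 := abs_le.mp (bspl_abs (s := s) hw (-x))
  have h4 := abs_le.mp (bspl_abs (s := s + d) hw (-x))
  rw [abs_le]
  constructor <;> linarith [h1.1, h1.2, h2.1, h2.2, h3.1, h3.2, h4.1, h4.2]

/-- Support of the bump. -/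
lemma bump_supp {a s w d : ℝ} (hw : 0 < w) (hd : 0 ≤ d) (hs : 0 ≤ s - 3 * w) {x : ℝ}
    (h : bump a s w d x ≠ 0) : s - 3 * w < |x| ∧ |x| < s + d + 3 * w := by
  have key : ∀ y : ℝ, gg s w d y ≠ 0 → s - 3 * w < y ∧ y < s + d + 3 * w := by
    intro y hy
    unfold gg at hy
    constructor
    · by_contra hle
      push Not at hle
      apply hy
      rw [bspl_zero hw (Or.inl hle), bspl_zero hw (Or.inl (by linarith))]
      ring
    · by_contra hle
      push Not at hle
      apply hy
      rw [bspl_zero hw (Or.inr (by linarith)), bspl_zero hw (Or.inr (by linarith))]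
      ring
  have hor : gg s w d x ≠ 0 ∨ gg s w d (-x) ≠ 0 := by
    by_contra hc
    push Not at hc
    apply h
    unfold bump
    rw [hc.1, hc.2]
    ring
  rcases hor with h1 | h1
  · have := key x h1
    rw [abs_of_pos (by linarith [this.1])]
    exact this
  · have := key (-x) h1
    rw [← abs_neg, abs_of_pos (by linarith [this.1])]
    exact this

end Pool.Agent.H688R2.JIT
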