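import Mathlib

set_option autoImplicit false

/-!
Just-in-time sequencing, total deviation: definitions.
-/

namespace Pool.Agent.H688R2.JIT

/-- An admissible penalty: a convex function `ℝ → ℝ` with `f 0 = 0` and `f x > 0` for `x ≠ 0`. -/
def Admissible (f : ℝ → ℝ) : Prop :=
  ConvexOn ℝ Set.univ f ∧ f 0 = 0 ∧ ∀ x : ℝ, x ≠ 0 → 0 < f x

/-- `D = ∑ d_i`. -/
def total {n : ℕ} (d : Fin n → ℕ) : ℕ := ∑ i, d i

/-- `x_{ik}`: the number of copies of model `i` among the positions `1, …, k` of `S`. -/
def copies {n : ℕ} (S : ℕ → Fin n) (i : Fin n) (k : ℕ) : ℕ :=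
  ((Finset.Icc 1 k).filter (fun j => S j = i)).card

/-- `S 1, S 2, …, S D` is a sequence for the demand vector `d`: model `i` occurs exactly `d i`
times among the positions `1, …, D` (values of `S` outside `1, …, D` are irrelevant). -/
def IsSeq {n : ℕ} (d : Fin n → ℕ) (S : ℕ → Fin n) : Prop :=
  ∀ i, copies S i (total d) = d i

/-- The total deviation `∑_i ∑_{k=1}^D F_i (x_{ik} - k r_i)`, `r_i = d_i / D`. -/
noncomputable def totalDev {n : ℕ} (F : Fin n → ℝ → ℝ) (d : Fin n → ℕ) (S : ℕ → Fin n) : ℝ :=
  ∑ i, ∑ k ∈ Finset.Icc 1 (total d),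
    F i ((copies S i k : ℝ) - (k : ℝ) * ((d i : ℝ) / (total d : ℝ)))

/-- `S` is an optimal sequence for the total deviation problem. -/
def IsOptimal {n : ℕ} (F : Fin n → ℝ → ℝ) (d : Fin n → ℕ) (S : ℕ → Fin n) : Prop :=
  IsSeq d S ∧ ∀ S' : ℕ → Fin n, IsSeq d S' → totalDev F d S ≤ totalDev F d S'

/-- A deterministic procedure with access to `F_1, …, F_n` by evaluation: it either stops with a
result, or evaluates some `F_i` at a real point `x` and continues in a way that may depend
arbitrarily on the value obtained.  Everything but the evaluations is free. -/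
inductive Proc (n : ℕ) (α : Type) : Type
  | ret (a : α) : Proc n α
  | eval (i : Fin n) (x : ℝ) (next : ℝ → Proc n α) : Proc n α

/-- Run a procedure against the functions `F`; returns the result and the number of
evaluations made. -/
def Proc.run {n : ℕ} {α : Type} (F : Fin n → ℝ → ℝ) : Proc n α → α × ℕ
  | .ret a => (a, 0)
  | .eval i x next => (((next (F i x)).run F).1, ((next (F i x)).run F).2 + 1)

/-- An algorithm for just-in-time sequencing: from the number `n` of models and the demand
vector `d`, `prep` produces a data structure (of any kind and any size); from the data structure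
and a position `k`, `query` produces a model.  Both may evaluate the `F_i`. -/
structure Algorithm where
  /-- the type of data structures -/
  Data : Type
  /-- the algorithm proper -/
  prep : (n : ℕ) → (Fin n → ℕ) → Proc n Data
  /-- the query procedure -/
  query : (n : ℕ) → Data → ℕ → Proc n (Fin n)

/-- `A` succeeds on the instance `(d, F)` within `c (n + log₂ D + 1)^c` evaluations: the
preparation and every single query make at most that many evaluations, and the models returned
for the positions `k = 1, …, D` are those of one optimal sequence. -/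
def Algorithm.Succeeds (A : Algorithm) {n : ℕ} (F : Fin n → ℝ → ℝ) (d : Fin n → ℕ) (c : ℕ) :
    Prop :=
  ((A.prep n d).run F).2 ≤ c * (n + Nat.log 2 (total d) + 1) ^ c ∧
  (∀ k ∈ Finset.Icc 1 (total d),
    ((A.query n ((A.prep n d).run F).1 k).run F).2 ≤ c * (n + Nat.log 2 (total d) + 1) ^ c) ∧
  ∃ S : ℕ → Fin n, IsOptimal F d S ∧
    ∀ k ∈ Finset.Icc 1 (total d), ((A.query n ((A.prep n d).run F).1 k).run F).1 = S k

end Pool.Agent.H688R2.JIT
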