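import Pool.Agent.H688R2.JIT.Grid

set_option autoImplicit false

namespace Pool.Agent.H688R2.JIT

open Finset Classical

/-- The first `b` points at which a procedure evaluates. -/
noncomputable def Proc.pts {n : ℕ} {α : Type} (F : Fin n → ℝ → ℝ) : ℕ → Proc n α → Finset ℝ
  | 0, _ => ∅
  | _ + 1, .ret _ => ∅
  | b + 1, .eval i x next => insert x ((next (F i x)).pts F b)

lemma pts_card {n : ℕ} {α : Type} (F : Fin n → ℝ → ℝ) (b : ℕ) (p : Proc n α) :
    (p.pts F b).card ≤ b := by
  induction b generalizing p with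
  | zero => simp [Proc.pts]
  | succ b ih =>
    cases p with
    | ret a => simp [Proc.pts]
    | eval i x next =>
      simp only [Proc.pts]
      exact (Finset.card_insert_le _ _).trans (Nat.succ_le_succ (ih _))

lemma run_congr {n : ℕ} {α : Type} (F F' : Fin n → ℝ → ℝ) (b : ℕ) (p : Proc n α)
    (h : ∀ x ∈ p.pts F b, ∀ i, F i x = F' i x) (hc : (p.run F').2 ≤ b) :
    p.run F = p.run F' := by
  induction b generalizing p with
  | zero =>
    cases p with
    | ret a => rfl
    | eval i x next =>
      simp [Proc.run] at hc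
  | succ b ih =>
    cases p with
    | ret a => rfl
    | eval i x next =>
      simp only [Proc.pts] at h
      have hx := h x (Finset.mem_insert_self _ _) i
      simp only [Proc.run] at hc ⊢
      have e := ih (next (F i x)) (fun y hy i => h y (Finset.mem_insert_of_mem hy) i) (by
        rw [hx]; omega)
      rw [e, hx]

/-- A stage of the construction: accumulated perturbation, protected points, exponent. -/
structure Stage where
  η : ℝ → ℝ
  P : Finset ℝ
  e : ℕ

/-- invariants of a stage -/
structure Inv (j : ℕ) (st : Stage) : Prop where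
  even : ∀ x, st.η (-x) = st.η x
  small : ∀ x, |st.η x| ≤ (1 - (1 / 2 : ℝ) ^ j) / 20
  supp : ∀ x, st.η x ≠ 0 → 6 / 10 < |x| ∧ |x| < 65 / 100
  cancel : ∀ N : ℕ, 0 < N → 3 ^ (st.e + 1) ∣ N → gridSum N st.η = 0

/-- `st'` extends `st` -/
structure Ext (j : ℕ) (st st' : Stage) : Prop where
  sub : st.P ⊆ st'.P
  agree : ∀ x ∈ st.P, st'.η x = st.η x
  conv : ConvexOn ℝ Set.univ (fun x => (1 / 2 : ℝ) ^ (j + 1) * x ^ 2 + (st'.η x - st.η x))
  small : ∀ x, |st'.η x - st.η x| ≤ (1 / 2 : ℝ) ^ (j + 1) / 20

/-- whatever is added later outside the protected points, `A` fails -/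
def Defeat (A : Algorithm) (c : ℕ) (st : Stage) : Prop :=
  ∀ η : ℝ → ℝ, GridOK 0 η → (∀ x ∈ st.P, η x = st.η x) →
    ∃ d : Fin 4 → ℕ, (∀ i, 0 < d i) ∧ ¬ A.Succeeds (pen η) d c

lemma growth (K c E : ℕ) : ∃ e, E < e ∧ 7 ≤ 3 ^ e ∧
    K + 2 * (c * (4 + Nat.log 2 (3 ^ e) + 1) ^ c) <
      (65 * 3 ^ e / 100 - 1) + 1 - (6 * 3 ^ e / 10 + 2) := by
  have h1 : Filter.Tendsto (fun n : ℕ => (n : ℝ) ^ c / (3 : ℝ) ^ n) Filter.atTop (nhds 0) :=
    tendsto_pow_const_div_const_pow_of_one_lt c (by norm_num)
  have h2 : Filter.Tendsto (fun n : ℕ => (n : ℝ) ^ 0 / (3 : ℝ) ^ n) Filter.atTop (nhds 0) :=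
    tendsto_pow_const_div_const_pow_of_one_lt 0 (by norm_num)
  have h3 := (h1.const_mul (2 * c * 7 ^ c : ℝ)).add (h2.const_mul (K + 10 : ℝ))
  simp only [mul_zero, add_zero] at h3
  have h4 : ∀ᶠ n : ℕ in Filter.atTop, (2 * c * 7 ^ c : ℝ) * ((n : ℝ) ^ c / (3 : ℝ) ^ n) +
      (K + 10 : ℝ) * ((n : ℝ) ^ 0 / (3 : ℝ) ^ n) < 1 / 20 := by
    exact h3.eventually (gt_mem_nhds (by norm_num))
  obtain ⟨e, he, heE⟩ := (h4.and (Filter.eventually_ge_atTop (E + 2))).exists
  have h3e : (0 : ℝ) < 3 ^ e := by positivity
  have h5 : 20 * (2 * c * 7 ^ c * (e : ℝ) ^ c + (K + 10)) < 3 ^ e := by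
    rw [pow_zero, ← mul_div_assoc, ← mul_div_assoc, ← add_div, div_lt_iff₀ h3e] at he
    nlinarith
  have h6 : 20 * (2 * c * 7 ^ c * e ^ c + (K + 10)) < 3 ^ e := by exact_mod_cast h5
  have hlog : Nat.log 2 (3 ^ e) ≤ 2 * e := by
    have : 3 ^ e ≤ 2 ^ (2 * e) := by
      rw [pow_mul]
      exact Nat.pow_le_pow_left (by norm_num) e
    calc Nat.log 2 (3 ^ e) ≤ Nat.log 2 (2 ^ (2 * e)) := Nat.log_mono_right this
      _ = 2 * e := Nat.log_pow (by norm_num) _
  have h7 : (4 + Nat.log 2 (3 ^ e) + 1) ^ c ≤ 7 ^ c * e ^ c := by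
    rw [← mul_pow]
    apply Nat.pow_le_pow_left
    omega
  have h8 : c * (4 + Nat.log 2 (3 ^ e) + 1) ^ c ≤ c * (7 ^ c * e ^ c) := Nat.mul_le_mul_left c h7
  have h9 : 2 * c * 7 ^ c * e ^ c = 2 * (c * (7 ^ c * e ^ c)) := by ring
  rw [h9] at h6
  refine ⟨e, by omega, by omega, by omega⟩

lemma mod_two (e : ℕ) : 3 ^ e % 2 = 1 := by
  rw [Nat.pow_mod]
  norm_num

lemma gridSum_add (N : ℕ) (f g : ℝ → ℝ) :
    gridSum N (fun x => f x + g x) = gridSum N f + gridSum N g := by
  unfold gridSum
  rw [Finset.sum_add_distrib]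

lemma step (j : ℕ) (st : Stage) (hst : Inv j st) (A : Algorithm) (c : ℕ) :
    ∃ st' : Stage, Inv (j + 1) st' ∧ Ext j st st' ∧ Defeat A c st' := by
  classical
  obtain ⟨e, heE, he7, hgrow⟩ := growth st.P.card c st.e
  set D : ℕ := 3 ^ e with hD
  have hodd : D % 2 = 1 := mod_two e
  clear_value D
  set b : ℕ := c * (4 + Nat.log 2 D + 1) ^ c with hb
  set F := pen st.η with hF
  set P1 : Finset ℝ := (A.prep 4 (dem D)).pts F b with hP1
  set q := A.query 4 ((A.prep 4 (dem D)).run F).1 (D / 2 + 1) with hq
  set P2 : Finset ℝ := q.pts F b with hP2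
  set σ : ℝ := if (q.run F).1 = 0 then -1 else 1 with hσ
  set a : ℝ := σ * (1 / 2) ^ (j + 6) with ha
  have habs : |a| = (1 / 2) ^ (j + 6) := by
    rw [ha, abs_mul, abs_of_pos (show (0 : ℝ) < (1 / 2) ^ (j + 6) by positivity)]
    have : |σ| = 1 := by
      rw [hσ]
      split_ifs <;> norm_num
    rw [this, one_mul]
  set Pall : Finset ℝ := st.P ∪ P1 ∪ P2 with hPall
  set κ : ℝ → ℕ := fun p => ⌊|p| * D + 1 / 12⌋₊ with hκ
  have hcard : (Pall.image κ).card < (Finset.Icc (6 * D / 10 + 2) (65 * D / 100 - 1)).card := by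
    rw [Nat.card_Icc]
    have h1 : (Pall.image κ).card ≤ Pall.card := Finset.card_image_le
    have h2 : Pall.card ≤ st.P.card + P1.card + P2.card := by
      rw [hPall]
      refine (Finset.card_union_le _ _).trans ?_
      have := Finset.card_union_le st.P P1
      omega
    have h3 := pts_card F b (A.prep 4 (dem D))
    have h4 := pts_card F b q
    rw [← hP1] at h3
    rw [← hP2] at h4
    omega
  obtain ⟨m, hm, hmP⟩ := Finset.exists_mem_notMem_of_card_lt_card hcard
  rw [Finset.mem_Icc] at hm
  have hD' : (0 : ℝ) < D := by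
    have : 0 < D := by omega
    exact_mod_cast this
  have hm1 : (6 * D : ℝ) / 10 + 1 ≤ m := by
    have : 6 * D + 10 ≤ 10 * m := by omega
    have h' : (6 * D + 10 : ℝ) ≤ 10 * m := by exact_mod_cast this
    linarith
  have hm2 : (m : ℝ) + 1 ≤ 65 * D / 100 := by
    have : 100 * m + 100 ≤ 65 * D := by omega
    have h' : (100 * m + 100 : ℝ) ≤ 65 * D := by exact_mod_cast this
    linarith
  have hw : (0 : ℝ) < 1 / (36 * (D : ℝ)) := by positivity
  have hlow : (m : ℝ) / D - 3 * (1 / (36 * (D : ℝ))) = (m - 1 / 12) / D := by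
    field_simp
    ring
  have hhigh : (m : ℝ) / D + 1 / (3 * (D : ℝ)) + 3 * (1 / (36 * (D : ℝ))) = (m + 5 / 12) / D := by
    field_simp
    ring
  have hsupp : ∀ x, siteBump a D m x ≠ 0 → (m - 1 / 12 : ℝ) < |x| * D ∧ |x| * D < m + 5 / 12 := by
    intro x hx
    have := bump_supp hw (by positivity) (by rw [hlow]; apply div_nonneg <;> linarith) hx
    rw [hlow, hhigh, div_lt_iff₀ hD', lt_div_iff₀ hD'] at this
    exact this
  have hzero : ∀ x ∈ Pall, siteBump a D m x = 0 := by
    intro x hx
    by_contra hne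
    have := hsupp x hne
    apply hmP
    rw [Finset.mem_image]
    refine ⟨x, hx, ?_⟩
    rw [hκ]
    simp only
    rw [Nat.floor_eq_iff (by positivity)]
    constructor <;> linarith [this.1, this.2]
  have hregion : ∀ x, siteBump a D m x ≠ 0 → 6 / 10 < |x| ∧ |x| < 65 / 100 := by
    intro x hx
    have := hsupp x hx
    constructor
    · by_contra hle
      push Not at hle
      nlinarith [this.1, this.2]
    · by_contra hle
      push Not at hle
      nlinarith [this.1, this.2]
  have hsm : ∀ x, |siteBump a D m x| ≤ (1 / 2 : ℝ) ^ (j + 1) / 20 := by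
    intro x
    have h1 := bump_abs (a := a) (s := (m : ℝ) / D) (d := 1 / (3 * (D : ℝ))) hw x
    rw [habs] at h1
    have h7 : (7 : ℝ) ≤ D := by exact_mod_cast he7
    have h2 : 1 / (36 * (D : ℝ)) ≤ 1 / 252 := by
      apply one_div_le_one_div_of_le
      · norm_num
      · linarith
    have h3 : 1152 * (1 / (36 * (D : ℝ))) ^ 2 ≤ 1 / 20 := by
      have : (1 / (36 * (D : ℝ))) ^ 2 ≤ (1 / 252) ^ 2 := by
        apply pow_le_pow_left₀ hw.le h2
      linarith
    have h4 : (1 / 2 : ℝ) ^ (j + 6) ≤ (1 / 2) ^ (j + 1) := by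
      apply pow_le_pow_of_le_one <;> norm_num
    calc |siteBump a D m x| ≤ _ := h1
      _ ≤ (1 / 2 : ℝ) ^ (j + 1) * (1 / 20) := by
        apply mul_le_mul h4 h3 (by positivity) (by positivity)
      _ = _ := by ring
  set st' : Stage :=
    { η := fun x => st.η x + siteBump a D m x
      P := Pall ∪ (Finset.range (D + 1)).image (fun k : ℕ => (k : ℝ) / D)
      e := e } with hst'
  have hsub : ∀ x, st'.η x - st.η x = siteBump a D m x := by
    intro x
    rw [hst']
    simp only
    ring
  refine ⟨st', ?_, ?_, ?_⟩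
  · refine ⟨?_, ?_, ?_, ?_⟩
    · intro x
      simp only [hst']
      rw [hst.even, siteBump, bump_even]
    · intro x
      simp only [hst']
      have h1 := hst.small x
      have h2 := hsm x
      have h3 := abs_add_le (st.η x) (siteBump a D m x)
      have h4 : (1 - (1 / 2 : ℝ) ^ (j + 1)) / 20 =
          (1 - (1 / 2 : ℝ) ^ j) / 20 + (1 / 2 : ℝ) ^ (j + 1) / 20 := by
        rw [pow_succ]
        ring
      rw [h4]
      linarith
    · intro x hx
      simp only [hst'] at hx
      by_cases h1 : st.η x = 0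
      · apply hregion
        intro h2
        apply hx
        rw [h1, h2, add_zero]
      · exact hst.supp x h1
    · intro N hN hdvd
      simp only [hst'] at hdvd ⊢
      rw [gridSum_add]
      rw [hst.cancel N hN (dvd_trans (pow_dvd_pow 3 (by omega)) hdvd)]
      rw [gridSum_siteBump_fine (by omega) (by omega) (by omega) a hN, add_zero]
      rw [pow_succ, mul_comm, ← hD] at hdvd
      exact hdvd
  · refine ⟨?_, ?_, ?_, ?_⟩
    · intro x hx
      rw [hst']
      simp only [hPall, Finset.mem_union]
      tauto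
    · intro x hx
      have := hzero x (by rw [hPall]; simp only [Finset.mem_union]; tauto)
      have h2 := hsub x
      linarith
    · simp only [hsub]
      have := convex_bump a ((m : ℝ) / D) (1 / (36 * D)) (1 / (3 * D))
      rw [habs] at this
      refine this.congr ?_
      intro x _
      simp only
      have e1 : (32 : ℝ) * (1 / 2) ^ (j + 6) = (1 / 2) ^ (j + 1) := by
        rw [show j + 6 = (j + 1) + 5 by ring, pow_add]
        norm_num
        ring
      rw [e1]
      rfl
    · intro x
      rw [hsub]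
      exact hsm x
  · intro η hη hagree
    have hη' : GridOK D η := ⟨hη.even, hη.small, hη.supp⟩
    refine ⟨dem D, ?_, ?_⟩
    · intro i
      fin_cases i
      · simp [dem]
      · simp [dem]
      · simp [dem]
      · simp [dem]
        omega
    · intro hsucc
      unfold Algorithm.Succeeds at hsucc
      rw [total_dem (by omega : 3 ≤ D)] at hsucc
      obtain ⟨hprep, hquery, S, hS, hans⟩ := hsucc
      have hagreeF : ∀ x ∈ Pall, ∀ i, F i x = pen η i x := by
        intro x hx i
        have h1 := hagree x (by rw [hst']; simp only [Finset.mem_union]; left; exact hx)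
        have h2 := hzero x hx
        have h3 := hsub x
        have h4 : η x = st.η x := by linarith
        rw [hF]
        fin_cases i <;> simp [pen, h4]
      have e1 : (A.prep 4 (dem D)).run F = (A.prep 4 (dem D)).run (pen η) := by
        apply run_congr F (pen η) b
        · intro x hx i
          apply hagreeF
          rw [hPall]
          simp only [Finset.mem_union]
          left; right
          exact hx
        · exact hprep
      have hk : D / 2 + 1 ∈ Finset.Icc 1 D := by
        rw [Finset.mem_Icc]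
        omega
      have hqc := hquery _ hk
      have hqa := hans _ hk
      rw [← e1, ← hq] at hqc hqa
      have e2 : q.run F = q.run (pen η) := by
        apply run_congr F (pen η) b
        · intro x hx i
          apply hagreeF
          rw [hPall]
          simp only [Finset.mem_union]
          right
          exact hx
        · exact hqc
      rw [← e2] at hqa
      have hgs : gridSum D η = a * (6 * (1 / (36 * (D : ℝ))) ^ 2) := by
        have h1 : gridSum D η = gridSum D st'.η := by
          unfold gridSum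
          apply Finset.sum_congr rfl
          intro k hk
          apply hagree
          rw [hst']
          simp only [Finset.mem_union]
          right
          exact Finset.mem_image_of_mem _ hk
        rw [h1, hst']
        simp only
        rw [gridSum_add, hst.cancel D (by omega) (by rw [hD]; exact pow_dvd_pow 3 (by omega)),
          gridSum_siteBump_self (by omega) (by omega) (by omega), zero_add]
      obtain ⟨hpos, hneg⟩ := opt_middle he7 hodd hη' hS
      have hww : (0 : ℝ) < 6 * (1 / (36 * (D : ℝ))) ^ 2 := by positivity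
      have hhalf : (0 : ℝ) < (1 / 2) ^ (j + 6) := by positivity
      by_cases h0 : (q.run F).1 = 0
      · have hgneg : gridSum D η < 0 := by
          rw [hgs, ha, hσ, if_pos h0]
          have := mul_pos hhalf hww
          linarith
        have hS0 : S (D / 2 + 1) = 0 := by
          exact Eq.trans (Eq.symm hqa) h0
        exact hneg hgneg hS0
      · have hgpos : 0 < gridSum D η := by
          rw [hgs, ha, hσ, if_neg h0]
          have := mul_pos hhalf hww
          linarith
        exact h0 (Eq.trans hqa (hpos hgpos))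

end Pool.Agent.H688R2.JIT
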