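import Pool.Agent.H688R2.JIT.Bump

set_option autoImplicit false

namespace Pool.Agent.H688R2.JIT

open Finset

/-- the bump at the site `m / D` -/
noncomputable def siteBump (a : ℝ) (D m : ℕ) : ℝ → ℝ :=
  bump a ((m : ℝ) / D) (1 / (36 * D)) (1 / (3 * D))

lemma gridSum_siteBump_self {D m : ℕ} (hD : 0 < D) (hm : 1 ≤ m) (hmD : m ≤ D) (a : ℝ) :
    gridSum D (siteBump a D m) = a * (6 * (1 / (36 * (D : ℝ))) ^ 2) := by
  have hD' : (0 : ℝ) < D := by exact_mod_cast hD
  have hw : (0 : ℝ) < 1 / (36 * (D : ℝ)) := by positivity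
  have hu : (0 : ℝ) < 1 / (D : ℝ) := by positivity
  have hwu : 1 / (36 * (D : ℝ)) = (1 / 36) * (1 / (D : ℝ)) := by
    field_simp
  have hdu : 1 / (3 * (D : ℝ)) = (1 / 3) * (1 / (D : ℝ)) := by
    field_simp
  have hmu : (m : ℝ) / D = m * (1 / (D : ℝ)) := by
    field_simp
  have hm' : (1 : ℝ) ≤ m := by exact_mod_cast hm
  unfold gridSum
  rw [Finset.sum_eq_single m]
  · unfold siteBump bump gg
    rw [bspl_center hw, bspl_zero (x := (m : ℝ) / D) hw, bspl_zero (x := -((m : ℝ) / D)) hw,
      bspl_zero (x := -((m : ℝ) / D)) hw]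
    · ring
    · left
      rw [hmu, hwu, hdu]
      nlinarith
    · left
      rw [hmu, hwu]
      nlinarith
    · left
      rw [hmu, hwu, hdu]
      nlinarith
  · intro k _ hkm
    have hku : (k : ℝ) / D = k * (1 / (D : ℝ)) := by
      field_simp
    have hk0 : (0 : ℝ) ≤ k := by positivity
    unfold siteBump bump gg
    rw [hku, hmu, hwu, hdu]
    rcases Nat.lt_or_gt_of_ne hkm with h | h
    · have h' : (k : ℝ) + 1 ≤ m := by exact_mod_cast h
      rw [bspl_zero (x := (k : ℝ) * (1 / D)) (by positivity),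
        bspl_zero (x := (k : ℝ) * (1 / D)) (by positivity),
        bspl_zero (x := -((k : ℝ) * (1 / D))) (by positivity),
        bspl_zero (x := -((k : ℝ) * (1 / D))) (by positivity)]
      · ring
      all_goals left; nlinarith
    · have h' : (m : ℝ) + 1 ≤ k := by exact_mod_cast h
      rw [bspl_zero (x := (k : ℝ) * (1 / D)) (by positivity),
        bspl_zero (x := (k : ℝ) * (1 / D)) (by positivity),
        bspl_zero (x := -((k : ℝ) * (1 / D))) (by positivity),
        bspl_zero (x := -((k : ℝ) * (1 / D))) (by positivity)]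
      · ring
      · left; nlinarith
      · left; nlinarith
      · right; nlinarith
      · right; nlinarith
  · intro h
    exfalso
    apply h
    rw [Finset.mem_range]
    omega

lemma gridSum_siteBump_fine {D m N : ℕ} (hD : 0 < D) (hm : 1 ≤ m) (hmD : m + 1 ≤ D) (a : ℝ)
    (hN : 0 < N) (hdvd : 3 * D ∣ N) : gridSum N (siteBump a D m) = 0 := by
  obtain ⟨q, rfl⟩ := hdvd
  have hq : 0 < q := by
    rcases Nat.eq_zero_or_pos q with h | h
    · subst h; simp at hN
    · exact h
  have hD' : (0 : ℝ) < D := by exact_mod_cast hD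
  have hq' : (0 : ℝ) < q := by exact_mod_cast hq
  have hw : (0 : ℝ) < 1 / (36 * (D : ℝ)) := by positivity
  have hu : (0 : ℝ) < 1 / (D : ℝ) := by positivity
  have hwu : 1 / (36 * (D : ℝ)) = (1 / 36) * (1 / (D : ℝ)) := by
    field_simp
  have hdu : 1 / (3 * (D : ℝ)) = (1 / 3) * (1 / (D : ℝ)) := by
    field_simp
  have hmu : (m : ℝ) / D = m * (1 / (D : ℝ)) := by
    field_simp
  have hm' : (1 : ℝ) ≤ m := by exact_mod_cast hm
  have hmD' : (m : ℝ) + 1 ≤ D := by exact_mod_cast hmD
  have hDu : (D : ℝ) * (1 / (D : ℝ)) = 1 := by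
    field_simp
  set N : ℕ := 3 * D * q with hNdef
  have hN' : (0 : ℝ) < N := by exact_mod_cast hN
  set s : ℝ := (m : ℝ) / D with hs
  set w : ℝ := 1 / (36 * (D : ℝ)) with hwdef
  set d : ℝ := 1 / (3 * (D : ℝ)) with hddef
  have hdq : d = (q : ℝ) / N := by
    rw [hddef, hNdef]
    push_cast
    field_simp
  have hqN : q ≤ N := by
    rw [hNdef]
    nlinarith
  -- reduce to positive side
  have h1 : gridSum N (siteBump a D m) =
      a * (∑ k ∈ Finset.range (N + 1), bspl s w ((k : ℝ) / N) -
        ∑ k ∈ Finset.range (N + 1), bspl s w ((k : ℝ) / N - d)) := by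
    unfold gridSum
    rw [← Finset.sum_sub_distrib, Finset.mul_sum]
    apply Finset.sum_congr rfl
    intro k _
    have hk0 : (0 : ℝ) ≤ (k : ℝ) / N := by positivity
    unfold siteBump bump gg
    rw [← hs, ← hwdef, ← hddef]
    rw [bspl_zero (x := -((k : ℝ) / N)) hw, bspl_zero (x := -((k : ℝ) / N)) hw, bspl_shift]
    · ring
    · left
      rw [hmu, hwu, hdu]
      nlinarith
    · left
      rw [hmu, hwu]
      nlinarith
  have h2 : ∑ k ∈ Finset.range (N + 1), bspl s w ((k : ℝ) / N - d) =
      ∑ k ∈ Finset.range (N + 1 - q), bspl s w ((k : ℝ) / N) := by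
    rw [Finset.range_eq_Ico, ← Finset.sum_Ico_consecutive _ (Nat.zero_le q) (by omega : q ≤ N + 1)]
    have hz : ∑ k ∈ Finset.Ico 0 q, bspl s w ((k : ℝ) / N - d) = 0 := by
      apply Finset.sum_eq_zero
      intro k hk
      rw [Finset.mem_Ico] at hk
      apply bspl_zero hw
      left
      have hkq : (k : ℝ) < q := by exact_mod_cast hk.2
      have : (k : ℝ) / N < d := by
        rw [hdq]
        exact div_lt_div_of_pos_right hkq hN'
      have h0 : 0 ≤ s - 3 * w := by
        rw [hmu, hwu]
        nlinarith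
      linarith
    rw [hz, zero_add, Finset.sum_Ico_eq_sum_range]
    apply Finset.sum_congr rfl
    intro k _
    congr 1
    rw [hdq]
    push_cast
    ring
  have h3 : ∑ k ∈ Finset.range (N + 1), bspl s w ((k : ℝ) / N) =
      ∑ k ∈ Finset.range (N + 1 - q), bspl s w ((k : ℝ) / N) := by
    rw [Finset.range_eq_Ico, ← Finset.sum_Ico_consecutive _ (Nat.zero_le (N + 1 - q))
      (by omega : N + 1 - q ≤ N + 1), ← Finset.range_eq_Ico]
    have hz : ∑ k ∈ Finset.Ico (N + 1 - q) (N + 1), bspl s w ((k : ℝ) / N) = 0 := by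
      apply Finset.sum_eq_zero
      intro k hk
      rw [Finset.mem_Ico] at hk
      apply bspl_zero hw
      right
      have hk1 : (N : ℝ) + 1 - q ≤ k := by
        have : N + 1 ≤ k + q := by omega
        have h' : (N : ℝ) + 1 ≤ k + q := by exact_mod_cast this
        linarith
      have h4 : 1 - d ≤ (k : ℝ) / N := by
        rw [hdq, le_div_iff₀ hN']
        have : (1 - (q : ℝ) / N) * N = N - q := by
          field_simp
        rw [this]
        linarith
      have h5 : s + 3 * w ≤ 1 - d := by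
        rw [hmu, hwu, hdu]
        nlinarith
      linarith
    rw [hz, add_zero]
  rw [h1, h2, h3, sub_self, mul_zero]

end Pool.Agent.H688R2.JIT
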