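import Pool.Agent.H688R2.JIT.Diag

set_option autoImplicit false

namespace Pool.Agent.H688R2.JIT

open Finset

/-- the initial stage -/
noncomputable def st0 : Stage := { η := fun _ => 0, P := ∅, e := 0 }

lemma inv0 : Inv 0 st0 := by
  refine ⟨?_, ?_, ?_, ?_⟩
  · intro x; rfl
  · intro x; simp [st0]
  · intro x hx; exact absurd rfl hx
  · intro N _ _
    simp [gridSum, st0]

/-- the sequence of stages -/
noncomputable def stages (A : ℕ → Algorithm) : (j : ℕ) → {st : Stage // Inv j st}
  | 0 => ⟨st0, inv0⟩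
  | j + 1 => ⟨(step j (stages A j).1 (stages A j).2 (A j.unpair.1) j.unpair.2).choose,
      (step j (stages A j).1 (stages A j).2 (A j.unpair.1) j.unpair.2).choose_spec.1⟩

lemma stages_ext (A : ℕ → Algorithm) (j : ℕ) : Ext j (stages A j).1 (stages A (j + 1)).1 :=
  (step j (stages A j).1 (stages A j).2 (A j.unpair.1) j.unpair.2).choose_spec.2.1

lemma stages_defeat (A : ℕ → Algorithm) (j : ℕ) :
    Defeat (A j.unpair.1) j.unpair.2 (stages A (j + 1)).1 :=
  (step j (stages A j).1 (stages A j).2 (A j.unpair.1) j.unpair.2).choose_spec.2.2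

/-- the `j`-th increment -/
noncomputable def inc (A : ℕ → Algorithm) (j : ℕ) (x : ℝ) : ℝ :=
  (stages A (j + 1)).1.η x - (stages A j).1.η x

/-- the final perturbation -/
noncomputable def etaInf (A : ℕ → Algorithm) (x : ℝ) : ℝ := ∑' j, inc A j x

lemma hasSum_half : HasSum (fun j : ℕ => (1 / 2 : ℝ) ^ (j + 1)) 1 := by
  have h := (hasSum_geometric_of_lt_one (r := (1 / 2 : ℝ)) (by norm_num) (by norm_num)).mul_left
    (1 / 2)
  have e : (1 / 2 : ℝ) * (1 - 1 / 2)⁻¹ = 1 := by norm_num
  rw [e] at h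
  have e2 : (fun j : ℕ => (1 / 2 : ℝ) ^ (j + 1)) = fun j : ℕ => 1 / 2 * (1 / 2) ^ j := by
    funext j
    rw [pow_succ]
    ring
  rw [e2]
  exact h

lemma inc_abs (A : ℕ → Algorithm) (j : ℕ) (x : ℝ) : |inc A j x| ≤ (1 / 2 : ℝ) ^ (j + 1) / 20 :=
  (stages_ext A j).small x

lemma inc_summable (A : ℕ → Algorithm) (x : ℝ) : Summable (fun j => inc A j x) := by
  apply Summable.of_norm_bounded (g := fun j : ℕ => (1 / 2 : ℝ) ^ (j + 1) / 20)
  · exact (hasSum_half.summable).div_const 20
  · intro j
    rw [Real.norm_eq_abs]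
    exact inc_abs A j x

lemma sum_inc (A : ℕ → Algorithm) (J : ℕ) (x : ℝ) :
    ∑ j ∈ Finset.range J, inc A j x = (stages A J).1.η x := by
  induction J with
  | zero => rfl
  | succ J ih =>
    rw [Finset.sum_range_succ, ih]
    unfold inc
    ring

lemma P_mono (A : ℕ → Algorithm) (J k : ℕ) : (stages A J).1.P ⊆ (stages A (J + k)).1.P := by
  induction k with
  | zero => exact subset_rfl
  | succ k ih => exact ih.trans (stages_ext A (J + k)).sub

lemma etaInf_eq (A : ℕ → Algorithm) (J : ℕ) {x : ℝ} (hx : x ∈ (stages A J).1.P) :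
    etaInf A x = (stages A J).1.η x := by
  unfold etaInf
  rw [tsum_eq_sum (s := Finset.range J), sum_inc]
  intro j hj
  rw [Finset.mem_range] at hj
  push Not at hj
  obtain ⟨k, rfl⟩ := Nat.exists_eq_add_of_le hj
  unfold inc
  rw [(stages_ext A (J + k)).agree x (P_mono A J k hx), sub_self]

lemma etaInf_ok (A : ℕ → Algorithm) : GridOK 0 (etaInf A) := by
  refine ⟨?_, ?_, ?_⟩
  · intro x
    unfold etaInf
    congr 1
    funext j
    unfold inc
    rw [(stages A (j + 1)).2.even, (stages A j).2.even]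
  · intro x
    unfold etaInf
    have h1 : ‖∑' j, inc A j x‖ ≤ 1 / 20 := by
      apply tsum_of_norm_bounded (g := fun j : ℕ => (1 / 2 : ℝ) ^ (j + 1) / 20)
      · exact hasSum_half.div_const 20
      · intro j
        rw [Real.norm_eq_abs]
        exact inc_abs A j x
    rw [Real.norm_eq_abs] at h1
    linarith
  · intro x hx
    by_contra hne
    apply hx
    have : ∀ j, (stages A j).1.η x = 0 := by
      intro j
      by_contra h
      exact hne ((stages A j).2.supp x h)
    unfold etaInf inc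
    simp [this]

lemma etaInf_convex (A : ℕ → Algorithm) :
    ConvexOn ℝ Set.univ (fun x => x ^ 2 + etaInf A x) := by
  have hf : ∀ x, x ^ 2 + etaInf A x = ∑' j : ℕ, ((1 / 2 : ℝ) ^ (j + 1) * x ^ 2 + inc A j x) := by
    intro x
    rw [Summable.tsum_add]
    · rw [tsum_mul_right, hasSum_half.tsum_eq, one_mul]
      rfl
    · exact hasSum_half.summable.mul_right _
    · exact inc_summable A x
  have hs : ∀ x, Summable (fun j : ℕ => ((1 / 2 : ℝ) ^ (j + 1) * x ^ 2 + inc A j x)) := by
    intro x
    exact (hasSum_half.summable.mul_right _).add (inc_summable A x)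
  refine ⟨convex_univ, ?_⟩
  intro x _ y _ p q hp hq hpq
  simp only [hf, smul_eq_mul]
  rw [← tsum_mul_left, ← tsum_mul_left, ← Summable.tsum_add ((hs x).mul_left p)
    ((hs y).mul_left q)]
  apply Summable.tsum_le_tsum
  · intro j
    have := (stages_ext A j).conv.2 (Set.mem_univ x) (Set.mem_univ y) hp hq hpq
    simp only [smul_eq_mul] at this
    exact this
  · exact hs _
  · exact ((hs x).mul_left p).add ((hs y).mul_left q)

lemma sq_admissible : Admissible (fun x : ℝ => x ^ 2) := by
  refine ⟨convex_sq, by norm_num, ?_⟩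
  intro x hx
  positivity

lemma etaInf_admissible (A : ℕ → Algorithm) : Admissible (fun x => x ^ 2 + etaInf A x) := by
  have h := etaInf_ok A
  refine ⟨etaInf_convex A, ?_, ?_⟩
  · have : etaInf A 0 = 0 := eta_zero h.supp (by left; norm_num)
    simp [this]
  · intro x hx
    change 0 < x ^ 2 + etaInf A x
    by_cases h0 : etaInf A x = 0
    · rw [h0]
      positivity
    · have h1 := h.supp x h0
      have h2 := abs_le.mp (h.small x)
      have h3 : x ^ 2 = |x| ^ 2 := (sq_abs x).symm
      rw [h3]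
      nlinarith [h1.1, h2.1]

/-- The main theorem. -/
theorem main (A : ℕ → Algorithm) : ∃ F : Fin 4 → ℝ → ℝ,
    (∀ i, Admissible (F i) ∧ ∀ x, F i (-x) = F i x) ∧
    ∀ m c : ℕ, ∃ d : Fin 4 → ℕ, (∀ i, 0 < d i) ∧ ¬ (A m).Succeeds F d c := by
  refine ⟨pen (etaInf A), ?_, ?_⟩
  · intro i
    fin_cases i
    · refine ⟨etaInf_admissible A, ?_⟩
      intro x
      simp only [pen]
      have := (etaInf_ok A).even x
      simp [this]
    · exact ⟨sq_admissible, fun x => by simp [pen]⟩
    · exact ⟨sq_admissible, fun x => by simp [pen]⟩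
    · exact ⟨sq_admissible, fun x => by simp [pen]⟩
  · intro m c
    have h := stages_defeat A (Nat.pair m c)
    rw [Nat.unpair_pair] at h
    exact h (etaInf A) (etaInf_ok A) (fun x hx => etaInf_eq A _ hx)

end Pool.Agent.H688R2.JIT
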