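import Pool.Agent.H688R2.JIT.Defs

set_option autoImplicit false

namespace Pool.Agent.H688R2.JIT

open Finset

/-- the demand vector `(1, 1, 1, D - 3)` -/
def dem (D : ℕ) : Fin 4 → ℕ := ![1, 1, 1, D - 3]

lemma total_dem {D : ℕ} (hD : 3 ≤ D) : total (dem D) = D := by
  simp only [total, dem, Fin.sum_univ_four]
  simp
  omega

/-- the penalties `x² + η, x², x², x²` -/
noncomputable def pen (η : ℝ → ℝ) : Fin 4 → ℝ → ℝ :=
  ![fun x => x ^ 2 + η x, fun x => x ^ 2, fun x => x ^ 2, fun x => x ^ 2]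

/-- Base cost. -/
noncomputable def B (s t : ℝ) : ℝ := 12 * t ^ 2 + s ^ 2 + s - 8 * s * t

/-- optimal number of special copies -/
def star (D k : ℕ) : ℕ :=
  (if D < 4 * k then 1 else 0) + (if D < 2 * k then 1 else 0) + (if 3 * D < 4 * k then 1 else 0)

/-- pointwise cost -/
noncomputable def phi (η : ℝ → ℝ) (r s : ℕ) (t : ℝ) : ℝ :=
  B s t + η ((if r ≤ s then (1 : ℝ) else 0) - t)

lemma copies_succ {n : ℕ} (S : ℕ → Fin n) (i : Fin n) (k : ℕ) :
    copies S i (k + 1) = copies S i k + (if S (k + 1) = i then 1 else 0) := by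
  unfold copies
  rw [← Finset.insert_Icc_right_eq_Icc_add_one (by omega), Finset.filter_insert]
  split_ifs with h
  · rw [Finset.card_insert_of_notMem]
    simp
  · rfl

lemma copies_zero {n : ℕ} (S : ℕ → Fin n) (i : Fin n) : copies S i 0 = 0 := by
  simp [copies]

lemma sum_copies {n : ℕ} (S : ℕ → Fin n) (k : ℕ) : ∑ i, copies S i k = k := by
  induction k with
  | zero => simp [copies_zero]
  | succ k ih =>
    simp only [copies_succ, Finset.sum_add_distrib, ih]
    simp

lemma copies_mono {n : ℕ} (S : ℕ → Fin n) (i : Fin n) {k l : ℕ} (h : k ≤ l) :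
    copies S i k ≤ copies S i l := by
  unfold copies
  apply Finset.card_le_card
  apply Finset.filter_subset_filter
  exact Finset.Icc_subset_Icc_right h

/-- The number of special copies among the first `k` positions. -/
def spec (S : ℕ → Fin 4) (k : ℕ) : ℕ := copies S 0 k + copies S 1 k + copies S 2 k

lemma spec_add (S : ℕ → Fin 4) (k : ℕ) : spec S k + copies S 3 k = k := by
  have := sum_copies S k
  simp only [Fin.sum_univ_four] at this
  unfold spec
  exact this

lemma spec_mono (S : ℕ → Fin 4) {k l : ℕ} (h : k ≤ l) : spec S k ≤ spec S l := by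
  unfold spec
  have h0 := copies_mono S 0 h
  have h1 := copies_mono S 1 h
  have h2 := copies_mono S 2 h
  omega

lemma seq_counts {D : ℕ} (hD : 3 ≤ D) {S : ℕ → Fin 4} (hS : IsSeq (dem D) S) {k : ℕ}
    (hk : k ≤ D) : copies S 0 k ≤ 1 ∧ copies S 1 k ≤ 1 ∧ copies S 2 k ≤ 1 := by
  have h0 := hS 0
  have h1 := hS 1
  have h2 := hS 2
  rw [total_dem hD] at h0 h1 h2
  simp [dem] at h0 h1 h2
  have m0 := copies_mono S 0 hk
  have m1 := copies_mono S 1 hk
  have m2 := copies_mono S 2 hk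
  omega

lemma sq_case {c : ℕ} (hc : c ≤ 1) (t : ℝ) : ((c : ℝ) - t) ^ 2 = c - 2 * c * t + t ^ 2 := by
  interval_cases c
  · norm_num
  · norm_num
    ring

lemma totalDev_eq {D : ℕ} (hD : 3 ≤ D) (η : ℝ → ℝ) {S : ℕ → Fin 4} (hS : IsSeq (dem D) S) :
    totalDev (pen η) (dem D) S =
      ∑ k ∈ Finset.Icc 1 D, (B (spec S k) ((k : ℝ) / D) + η ((copies S 0 k : ℝ) - (k : ℝ) / D)) := by
  unfold totalDev
  rw [total_dem hD]
  rw [Fin.sum_univ_four, ← Finset.sum_add_distrib, ← Finset.sum_add_distrib,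
    ← Finset.sum_add_distrib]
  apply Finset.sum_congr rfl
  intro k hk
  rw [Finset.mem_Icc] at hk
  obtain ⟨h0, h1, h2⟩ := seq_counts hD hS hk.2
  have hD0 : (D : ℝ) ≠ 0 := by
    have : 0 < D := by omega
    positivity
  have h3 : ((copies S 3 k : ℕ) : ℝ) = k - spec S k := by
    have := spec_add S k
    have h' : ((spec S k + copies S 3 k : ℕ) : ℝ) = k := by exact_mod_cast this
    push_cast at h'
    linarith
  have hs : ((spec S k : ℕ) : ℝ) = copies S 0 k + copies S 1 k + copies S 2 k := by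
    unfold spec
    push_cast
    ring
  have e0 := sq_case h0 ((k : ℝ) / D)
  have e1 := sq_case h1 ((k : ℝ) / D)
  have e2 := sq_case h2 ((k : ℝ) / D)
  have hd3 : (((D - 3 : ℕ) : ℕ) : ℝ) = D - 3 := by
    push_cast [Nat.cast_sub hD]
    ring
  have e3 : ((copies S 3 k : ℝ) - (k : ℝ) * (((D - 3 : ℕ) : ℝ) / D)) =
      3 * ((k : ℝ) / D) - spec S k := by
    rw [h3, hd3]
    field_simp
    ring
  simp only [pen, dem, Matrix.cons_val_zero, Matrix.cons_val_one, Matrix.cons_val]
  have e01 : (k : ℝ) * (((1 : ℕ) : ℝ) / D) = (k : ℝ) / D := by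
    push_cast
    ring
  rw [e01, e0, e1, e2, e3]
  unfold B
  rw [hs]
  ring

lemma exists_rank {D : ℕ} (hD : 3 ≤ D) {S : ℕ → Fin 4} (hS : IsSeq (dem D) S) :
    ∃ r : ℕ, 1 ≤ r ∧ r ≤ 3 ∧ ∀ k ≤ D, copies S 0 k = if r ≤ spec S k then 1 else 0 := by
  -- first position of model 0
  have hD1 : copies S 0 D = 1 := by
    have h0 := hS 0
    rw [total_dem hD] at h0
    simpa [dem] using h0
  have hex : ∃ q, copies S 0 q = 1 := ⟨D, hD1⟩
  classical
  set q := Nat.find hex with hq
  have hq1 : copies S 0 q = 1 := Nat.find_spec hex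
  have hqmin : ∀ m < q, copies S 0 m ≠ 1 := fun m hm => Nat.find_min hex hm
  have hqD : q ≤ D := Nat.find_min' hex hD1
  have hq0 : q ≠ 0 := by
    intro h
    rw [h, copies_zero] at hq1
    exact absurd hq1 (by norm_num)
  obtain ⟨p, hp⟩ := Nat.exists_eq_succ_of_ne_zero hq0
  have hp0 : copies S 0 p = 0 := by
    have h1 := hqmin p (by omega)
    have h2 := (seq_counts hD hS (k := p) (by omega)).1
    omega
  have hspq : spec S q = spec S p + 1 := by
    have e0 := copies_succ S 0 p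
    have e1 := copies_succ S 1 p
    have e2 := copies_succ S 2 p
    have hSq : S (p + 1) = 0 := by
      by_contra hne
      rw [if_neg hne] at e0
      rw [hp] at hq1
      simp only [Nat.succ_eq_add_one] at hq1
      omega
    rw [hSq] at e0 e1 e2
    simp at e0 e1 e2
    unfold spec
    rw [hp, Nat.succ_eq_add_one]
    omega
  refine ⟨spec S q, by omega, ?_, ?_⟩
  · obtain ⟨h0, h1, h2⟩ := seq_counts hD hS hqD
    unfold spec
    omega
  · intro k hk
    by_cases hkq : q ≤ k
    · have h1 := spec_mono S hkq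
      rw [if_pos h1]
      have h2 := copies_mono S 0 hkq
      have h3 := (seq_counts hD hS hk).1
      omega
    · have hkp : k ≤ p := by
        have : q = p + 1 := hp
        omega
      have h1 := spec_mono S hkp
      rw [if_neg (by omega)]
      have h2 := copies_mono S 0 hkp
      omega

/-- The hypotheses on the perturbation at the grid points `±k/D`. -/
structure GridOK (D : ℕ) (η : ℝ → ℝ) : Prop where
  even : ∀ x, η (-x) = η x
  small : ∀ x, |η x| ≤ 1 / 10
  supp : ∀ x, η x ≠ 0 → 6 / 10 < |x| ∧ |x| < 65 / 100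

lemma star_cases (D k : ℕ) (hodd : D % 2 = 1) :
    (star D k = 0 ∧ 4 * k < D) ∨ (star D k = 1 ∧ D < 4 * k ∧ 2 * k < D) ∨
      (star D k = 2 ∧ D < 2 * k ∧ 4 * k < 3 * D) ∨ (star D k = 3 ∧ 3 * D < 4 * k) := by
  unfold star
  have h1 : D ≠ 4 * k := by omega
  have h2 : D ≠ 2 * k := by omega
  have h3 : 3 * D ≠ 4 * k := by omega
  split_ifs <;> omega

lemma star_real (D k : ℕ) (hD : 0 < D) (hodd : D % 2 = 1) :
    (star D k = 0 ∧ (k : ℝ) / D < 1 / 4) ∨
    (star D k = 1 ∧ 1 / 4 < (k : ℝ) / D ∧ (k : ℝ) / D < 1 / 2) ∨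
    (star D k = 2 ∧ 1 / 2 < (k : ℝ) / D ∧ (k : ℝ) / D < 3 / 4) ∨
    (star D k = 3 ∧ 3 / 4 < (k : ℝ) / D) := by
  have hD' : (0 : ℝ) < D := by exact_mod_cast hD
  rcases star_cases D k hodd with h | h | h | h
  · left
    refine ⟨h.1, ?_⟩
    rw [div_lt_iff₀ hD']
    have : (4 * k : ℝ) < D := by exact_mod_cast h.2
    linarith
  · right; left
    refine ⟨h.1, ?_, ?_⟩
    · rw [lt_div_iff₀ hD']
      have : (D : ℝ) < 4 * k := by exact_mod_cast h.2.1
      linarith
    · rw [div_lt_iff₀ hD']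
      have : (2 * k : ℝ) < D := by exact_mod_cast h.2.2
      linarith
  · right; right; left
    refine ⟨h.1, ?_, ?_⟩
    · rw [lt_div_iff₀ hD']
      have : (D : ℝ) < 2 * k := by exact_mod_cast h.2.1
      linarith
    · rw [div_lt_iff₀ hD']
      have : (4 * k : ℝ) < 3 * D := by exact_mod_cast h.2.2
      linarith
  · right; right; right
    refine ⟨h.1, ?_⟩
    rw [lt_div_iff₀ hD']
    have : (3 * D : ℝ) < 4 * k := by exact_mod_cast h.2
    linarith

lemma region_cases {η : ℝ → ℝ} (hη : ∀ x, η x ≠ 0 → 6 / 10 < |x| ∧ |x| < 65 / 100)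
    {t : ℝ} (ht0 : 0 ≤ t) (ht1 : t ≤ 1) {a : ℝ} (ha : a = 0 ∨ a = 1) (h : η (a - t) ≠ 0) :
    (35 / 100 < t ∧ t < 4 / 10) ∨ (6 / 10 < t ∧ t < 65 / 100) := by
  have h1 := hη _ h
  rcases ha with rfl | rfl
  · right
    rw [zero_sub, abs_neg, abs_of_nonneg ht0] at h1
    exact h1
  · left
    rw [abs_of_nonneg (by linarith)] at h1
    constructor <;> linarith [h1.1, h1.2]

lemma B_lt {j s : ℕ} (hs : s ≤ 3) (hne : s ≠ j) {t : ℝ}
    (hj : (j = 0 ∧ t < 1 / 4) ∨ (j = 1 ∧ 1 / 4 < t ∧ t < 1 / 2) ∨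
      (j = 2 ∧ 1 / 2 < t ∧ t < 3 / 4) ∨ (j = 3 ∧ 3 / 4 < t)) : B j t < B s t := by
  unfold B
  rcases hj with ⟨rfl, h⟩ | ⟨rfl, h, h'⟩ | ⟨rfl, h, h'⟩ | ⟨rfl, h⟩ <;>
    interval_cases s <;> first
      | exact absurd rfl hne
      | (norm_num; linarith)

lemma B_gap {j s : ℕ} (hs : s ≤ 3) (hne : s ≠ j) {t : ℝ}
    (hj : (j = 0 ∧ t < 1 / 4) ∨ (j = 1 ∧ 1 / 4 < t ∧ t < 1 / 2) ∨
      (j = 2 ∧ 1 / 2 < t ∧ t < 3 / 4) ∨ (j = 3 ∧ 3 / 4 < t))
    (ht : (35 / 100 < t ∧ t < 4 / 10) ∨ (6 / 10 < t ∧ t < 65 / 100)) :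
    B j t + 3 / 10 < B s t := by
  unfold B
  rcases hj with ⟨rfl, h⟩ | ⟨rfl, h, h'⟩ | ⟨rfl, h, h'⟩ | ⟨rfl, h⟩ <;>
    rcases ht with ⟨h1, h2⟩ | ⟨h1, h2⟩ <;>
    interval_cases s <;> first
      | exact absurd rfl hne
      | (exfalso; linarith)
      | (norm_num; linarith)

lemma phi_lt {D : ℕ} (hD : 0 < D) (hodd : D % 2 = 1) {η : ℝ → ℝ} (hη : GridOK D η)
    {k : ℕ} (hk : k ≤ D) {r s : ℕ} (hs : s ≤ 3) (hne : s ≠ star D k) :
    phi η r (star D k) ((k : ℝ) / D) < phi η r s ((k : ℝ) / D) := by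
  have hD' : (0 : ℝ) < D := by exact_mod_cast hD
  set t : ℝ := (k : ℝ) / D with ht
  have ht0 : 0 ≤ t := by positivity
  have ht1 : t ≤ 1 := by
    rw [ht, div_le_one hD']
    exact_mod_cast hk
  have hst := star_real D k hD hodd
  rw [← ht] at hst
  unfold phi
  set a : ℝ := (if r ≤ star D k then (1 : ℝ) else 0) with ha
  set b : ℝ := (if r ≤ s then (1 : ℝ) else 0) with hb
  have ha' : a = 0 ∨ a = 1 := by
    rw [ha]; split_ifs <;> simp
  have hb' : b = 0 ∨ b = 1 := by
    rw [hb]; split_ifs <;> simp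
  have hBlt : B (star D k) t < B s t := B_lt hs hne hst
  by_cases h1 : η (a - t) = 0
  · by_cases h2 : η (b - t) = 0
    · rw [h1, h2]
      linarith
    · have hreg := region_cases hη.supp ht0 ht1 hb' h2
      have hg := B_gap hs hne hst hreg
      have q2 := abs_le.mp (hη.small (b - t))
      rw [h1]
      linarith [q2.1]
  · have hreg := region_cases hη.supp ht0 ht1 ha' h1
    have hg := B_gap hs hne hst hreg
    have q1 := abs_le.mp (hη.small (a - t))
    have q2 := abs_le.mp (hη.small (b - t))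
    linarith [q2.1, q1.2]

/-- the value of the best sequence in which the distinguished model is the `r`-th special one -/
noncomputable def V (D : ℕ) (η : ℝ → ℝ) (r : ℕ) : ℝ :=
  ∑ k ∈ Finset.Icc 1 D, phi η r (star D k) ((k : ℝ) / D)

lemma totalDev_eq_phi {D : ℕ} (hD : 3 ≤ D) (η : ℝ → ℝ) {S : ℕ → Fin 4} (hS : IsSeq (dem D) S)
    {r : ℕ} (hr : ∀ k ≤ D, copies S 0 k = if r ≤ spec S k then 1 else 0) :
    totalDev (pen η) (dem D) S =
      ∑ k ∈ Finset.Icc 1 D, phi η r (spec S k) ((k : ℝ) / D) := by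
  rw [totalDev_eq hD η hS]
  apply Finset.sum_congr rfl
  intro k hk
  rw [Finset.mem_Icc] at hk
  unfold phi
  rw [hr k hk.2]
  push_cast
  rfl

lemma V_le {D : ℕ} (hD : 3 ≤ D) (hodd : D % 2 = 1) {η : ℝ → ℝ} (hη : GridOK D η)
    {S : ℕ → Fin 4} (hS : IsSeq (dem D) S)
    {r : ℕ} (hr : ∀ k ≤ D, copies S 0 k = if r ≤ spec S k then 1 else 0) :
    V D η r ≤ totalDev (pen η) (dem D) S ∧
      (totalDev (pen η) (dem D) S ≤ V D η r → ∀ k ≤ D, 1 ≤ k → spec S k = star D k) := by
  rw [totalDev_eq_phi hD η hS hr]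
  have hle : ∀ k ∈ Finset.Icc 1 D, phi η r (star D k) ((k : ℝ) / D) ≤
      phi η r (spec S k) ((k : ℝ) / D) := by
    intro k hk
    rw [Finset.mem_Icc] at hk
    by_cases h : spec S k = star D k
    · rw [h]
    · have hs3 : spec S k ≤ 3 := by
        obtain ⟨h0, h1, h2⟩ := seq_counts hD hS hk.2
        unfold spec
        omega
      exact (phi_lt (by omega) hodd hη hk.2 hs3 h).le
  refine ⟨Finset.sum_le_sum hle, ?_⟩
  intro hge k hkD hk1
  by_contra hne
  have hs3 : spec S k ≤ 3 := by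
    obtain ⟨h0, h1, h2⟩ := seq_counts hD hS hkD
    unfold spec
    omega
  have hlt := phi_lt (η := η) (r := r) (by omega) hodd hη hkD hs3 hne
  have := Finset.sum_lt_sum hle ⟨k, Finset.mem_Icc.mpr ⟨hk1, hkD⟩, hlt⟩
  unfold V at hge
  linarith

/-- the sequence with model `0` at `u`, `1` at `v`, `2` at `w` and `3` elsewhere -/
def T (u v w : ℕ) : ℕ → Fin 4 := fun k => if k = u then 0 else if k = v then 1 else
  if k = w then 2 else 3

lemma copies_single {n : ℕ} (S : ℕ → Fin n) (i : Fin n) (u : ℕ) (hu : 1 ≤ u)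
    (h : ∀ k, S k = i ↔ k = u) (k : ℕ) : copies S i k = if u ≤ k then 1 else 0 := by
  unfold copies
  have : (Finset.Icc 1 k).filter (fun j => S j = i) = (Finset.Icc 1 k).filter (fun j => j = u) := by
    apply Finset.filter_congr
    intro j _
    exact h j
  rw [this, Finset.filter_eq']
  split_ifs with h1 h2 h2
  · simp
  · exfalso
    rw [Finset.mem_Icc] at h1
    exact h2 h1.2
  · exfalso
    rw [Finset.mem_Icc] at h1
    exact h1 ⟨hu, h2⟩
  · simp

lemma T_seq {D u v w : ℕ} (hD : 3 ≤ D) (hu : 1 ≤ u) (hv : 1 ≤ v) (hw : 1 ≤ w) (huD : u ≤ D)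
    (hvD : v ≤ D) (hwD : w ≤ D) (huv : u ≠ v) (huw : u ≠ w) (hvw : v ≠ w) :
    IsSeq (dem D) (T u v w) ∧
      (∀ k, copies (T u v w) 0 k = if u ≤ k then 1 else 0) ∧
      ∀ k, spec (T u v w) k =
        (if u ≤ k then 1 else 0) + (if v ≤ k then 1 else 0) + (if w ≤ k then 1 else 0) := by
  have c0 : ∀ k, copies (T u v w) 0 k = if u ≤ k then 1 else 0 := by
    apply copies_single _ _ _ hu
    intro k
    unfold T
    split_ifs <;> simp_all
  have c1 : ∀ k, copies (T u v w) 1 k = if v ≤ k then 1 else 0 := by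
    apply copies_single _ _ _ hv
    intro k
    unfold T
    split_ifs <;> simp_all
  have c2 : ∀ k, copies (T u v w) 2 k = if w ≤ k then 1 else 0 := by
    apply copies_single _ _ _ hw
    intro k
    unfold T
    split_ifs <;> simp_all
  have hs : ∀ k, spec (T u v w) k =
        (if u ≤ k then 1 else 0) + (if v ≤ k then 1 else 0) + (if w ≤ k then 1 else 0) := by
    intro k
    unfold spec
    rw [c0, c1, c2]
  refine ⟨?_, c0, hs⟩
  intro i
  rw [total_dem hD]
  have hsD : spec (T u v w) D = 3 := by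
    rw [hs, if_pos huD, if_pos hvD, if_pos hwD]
  have h3 := spec_add (T u v w) D
  fin_cases i
  · simp [dem, c0, huD]
  · simp [dem, c1, hvD]
  · simp [dem, c2, hwD]
  · simp [dem]
    omega

lemma star_eq (D k : ℕ) : star D k = (if D / 4 + 1 ≤ k then 1 else 0) +
    (if D / 2 + 1 ≤ k then 1 else 0) + (if 3 * D / 4 + 1 ≤ k then 1 else 0) := by
  unfold star
  split_ifs <;> omega

lemma opt_le_V {D : ℕ} (hD : 7 ≤ D) {η : ℝ → ℝ} {S : ℕ → Fin 4}
    (hS : IsOptimal (pen η) (dem D) S) :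
    totalDev (pen η) (dem D) S ≤ V D η 1 ∧ totalDev (pen η) (dem D) S ≤ V D η 2 := by
  constructor
  · obtain ⟨h1, h2, h3⟩ := T_seq (D := D) (u := D / 4 + 1) (v := D / 2 + 1) (w := 3 * D / 4 + 1)
      (by omega) (by omega) (by omega) (by omega) (by omega) (by omega) (by omega) (by omega)
      (by omega) (by omega)
    have hsp : ∀ k, spec (T (D / 4 + 1) (D / 2 + 1) (3 * D / 4 + 1)) k = star D k := by
      intro k
      rw [h3, star_eq]
    have := hS.2 _ h1
    rw [totalDev_eq_phi (r := 1) (by omega) η h1] at this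
    · unfold V
      simpa only [hsp] using this
    · intro k _
      rw [h2, hsp, star_eq]
      split_ifs <;> omega
  · obtain ⟨h1, h2, h3⟩ := T_seq (D := D) (u := D / 2 + 1) (v := D / 4 + 1) (w := 3 * D / 4 + 1)
      (by omega) (by omega) (by omega) (by omega) (by omega) (by omega) (by omega) (by omega)
      (by omega) (by omega)
    have hsp : ∀ k, spec (T (D / 2 + 1) (D / 4 + 1) (3 * D / 4 + 1)) k = star D k := by
      intro k
      rw [h3, star_eq]
      ring
    have := hS.2 _ h1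
    rw [totalDev_eq_phi (r := 2) (by omega) η h1] at this
    · unfold V
      simpa only [hsp] using this
    · intro k _
      rw [h2, hsp, star_eq]
      split_ifs <;> omega

/-- the grid sum -/
noncomputable def gridSum (D : ℕ) (η : ℝ → ℝ) : ℝ := ∑ k ∈ Finset.range (D + 1), η ((k : ℝ) / D)

lemma eta_zero {η : ℝ → ℝ} (hη : ∀ x, η x ≠ 0 → 6 / 10 < |x| ∧ |x| < 65 / 100) {x : ℝ}
    (h : |x| ≤ 6 / 10 ∨ 65 / 100 ≤ |x|) : η x = 0 := by
  by_contra hne
  have := hη x hne
  rcases h with h | h <;> linarith [this.1, this.2]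

lemma V_two {D : ℕ} (hD : 0 < D) (hodd : D % 2 = 1) {η : ℝ → ℝ} (hη : GridOK D η) :
    V D η 2 = ∑ k ∈ Finset.Icc 1 D, B (star D k) ((k : ℝ) / D) := by
  unfold V
  apply Finset.sum_congr rfl
  intro k hk
  rw [Finset.mem_Icc] at hk
  have hD' : (0 : ℝ) < D := by exact_mod_cast hD
  have ht0 : 0 ≤ (k : ℝ) / D := by positivity
  have ht1 : (k : ℝ) / D ≤ 1 := by
    rw [div_le_one hD']
    exact_mod_cast hk.2
  have hz : η ((if 2 ≤ star D k then (1 : ℝ) else 0) - (k : ℝ) / D) = 0 := by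
    apply eta_zero hη.supp
    left
    rw [abs_le]
    rcases star_real D k hD hodd with ⟨h, h1⟩ | ⟨h, h1, h2⟩ | ⟨h, h1, h2⟩ | ⟨h, h1⟩ <;>
      rw [h] <;> norm_num <;> constructor <;> linarith
  unfold phi
  rw [hz]
  ring

lemma V_one {D : ℕ} (hD : 0 < D) (hodd : D % 2 = 1) {η : ℝ → ℝ} (hη : GridOK D η) :
    V D η 1 = V D η 2 + gridSum D η := by
  rw [V_two hD hodd hη]
  have hD' : (0 : ℝ) < D := by exact_mod_cast hD
  have h1 : V D η 1 = ∑ k ∈ Finset.Icc 1 D, (B (star D k) ((k : ℝ) / D) + η (1 - (k : ℝ) / D)) := by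
    unfold V
    apply Finset.sum_congr rfl
    intro k hk
    rw [Finset.mem_Icc] at hk
    unfold phi
    have ht0 : 0 ≤ (k : ℝ) / D := by positivity
    have ht1 : (k : ℝ) / D ≤ 1 := by
      rw [div_le_one hD']
      exact_mod_cast hk.2
    rcases star_real D k hD hodd with ⟨h, h1⟩ | ⟨h, h1, h2⟩ | ⟨h, h1, h2⟩ | ⟨h, h1⟩
    · rw [h]
      norm_num
      rw [eta_zero hη.supp, eta_zero hη.supp]
      · right
        rw [abs_of_nonneg (by linarith)]
        linarith
      · left
        rw [abs_neg, abs_of_nonneg (by positivity)]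
        linarith
    · rw [h]; norm_num
    · rw [h]; norm_num
    · rw [h]; norm_num
  rw [h1, Finset.sum_add_distrib]
  congr 1
  unfold gridSum
  rw [Finset.sum_range_succ]
  have hlast : η ((D : ℝ) / D) = 0 := by
    rw [div_self hD'.ne']
    apply eta_zero hη.supp
    right
    norm_num
  rw [hlast, add_zero]
  apply Finset.sum_nbij' (fun k => D - k) (fun k => D - k)
  · intro k hk
    rw [Finset.mem_Icc] at hk
    rw [Finset.mem_range]
    omega
  · intro k hk
    rw [Finset.mem_range] at hk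
    rw [Finset.mem_Icc]
    omega
  · intro k hk
    rw [Finset.mem_Icc] at hk
    omega
  · intro k hk
    rw [Finset.mem_range] at hk
    omega
  · intro k hk
    rw [Finset.mem_Icc] at hk
    rw [Nat.cast_sub hk.2, sub_div, div_self hD'.ne']

lemma V_three {D : ℕ} (hD : 0 < D) (hodd : D % 2 = 1) {η : ℝ → ℝ} (hη : GridOK D η) :
    V D η 3 = V D η 2 + gridSum D η := by
  rw [V_two hD hodd hη]
  have hD' : (0 : ℝ) < D := by exact_mod_cast hD
  have h1 : V D η 3 = ∑ k ∈ Finset.Icc 1 D, (B (star D k) ((k : ℝ) / D) + η ((k : ℝ) / D)) := by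
    unfold V
    apply Finset.sum_congr rfl
    intro k hk
    rw [Finset.mem_Icc] at hk
    unfold phi
    have ht0 : 0 ≤ (k : ℝ) / D := by positivity
    have ht1 : (k : ℝ) / D ≤ 1 := by
      rw [div_le_one hD']
      exact_mod_cast hk.2
    rcases star_real D k hD hodd with ⟨h, h1⟩ | ⟨h, h1, h2⟩ | ⟨h, h1, h2⟩ | ⟨h, h1⟩
    · rw [h]; norm_num [hη.even]
    · rw [h]; norm_num [hη.even]
    · rw [h]; norm_num [hη.even]
    · rw [h]
      norm_num
      rw [eta_zero hη.supp, eta_zero hη.supp]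
      · right
        rw [abs_of_nonneg (by positivity)]
        linarith
      · left
        rw [abs_of_nonneg (by linarith)]
        linarith
  rw [h1, Finset.sum_add_distrib]
  congr 1
  unfold gridSum
  rw [Finset.range_eq_Ico, Finset.sum_eq_sum_Ico_succ_bot (by omega)]
  have h0 : η (((0 : ℕ) : ℝ) / D) = 0 := by
    apply eta_zero hη.supp
    left
    norm_num
  rw [h0, zero_add]
  rfl

/-- In every optimal sequence, position `D/2 + 1` holds model `0` if the grid sum of `η` is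
positive, and another model if the grid sum is negative. -/
theorem opt_middle {D : ℕ} (hD : 7 ≤ D) (hodd : D % 2 = 1) {η : ℝ → ℝ} (hη : GridOK D η)
    {S : ℕ → Fin 4} (hS : IsOptimal (pen η) (dem D) S) :
    (0 < gridSum D η → S (D / 2 + 1) = 0) ∧ (gridSum D η < 0 → S (D / 2 + 1) ≠ 0) := by
  obtain ⟨hV1, hV2⟩ := opt_le_V hD hS
  obtain ⟨r, hr1, hr3, hr⟩ := exists_rank (by omega) hS.1
  obtain ⟨hle, heq⟩ := V_le (by omega) hodd hη hS.1 hr
  have e1 := V_one (D := D) (by omega) hodd hη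
  have e3 := V_three (D := D) (by omega) hodd hη
  have hp2 : star D (D / 2 + 1) = 2 := by
    rcases star_cases D (D / 2 + 1) hodd with h | h | h | h <;> omega
  have hp1 : star D (D / 2) = 1 := by
    rcases star_cases D (D / 2) hodd with h | h | h | h <;> omega
  constructor
  · intro hpos
    have hr2 : r = 2 := by
      interval_cases r
      · linarith
      · rfl
      · linarith
    subst hr2
    have hsp := heq (by linarith)
    have c2 := hr (D / 2 + 1) (by omega)
    have c1 := hr (D / 2) (by omega)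
    rw [hsp (D / 2 + 1) (by omega) (by omega), hp2, if_pos (le_refl _)] at c2
    rw [hsp (D / 2) (by omega) (by omega), hp1, if_neg (by norm_num)] at c1
    have := copies_succ S 0 (D / 2)
    rw [c1, c2] at this
    by_contra hne
    rw [if_neg hne] at this
    omega
  · intro hneg hSp
    have hr2 : r ≠ 2 := by
      rintro rfl
      linarith
    have hVr : V D η r = V D η 1 := by
      interval_cases r
      · rfl
      · exact absurd rfl hr2
      · linarith
    have hsp := heq (by linarith)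
    have c2 := hr (D / 2 + 1) (by omega)
    have c1 := hr (D / 2) (by omega)
    rw [hsp (D / 2 + 1) (by omega) (by omega), hp2] at c2
    rw [hsp (D / 2) (by omega) (by omega), hp1] at c1
    have := copies_succ S 0 (D / 2)
    rw [c1, c2, if_pos hSp] at this
    interval_cases r
    · norm_num at this
    · exact absurd rfl hr2
    · norm_num at this

end Pool.Agent.H688R2.JIT
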